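import Pool.Agent.ZPT.Stmts

set_option autoImplicit false

namespace Pool.Agent.ZPT.H51

open Polynomial

/-- Fibrewise summation with finite fibres. -/
lemma fib {E : Type} [NormedAddCommGroup E] [CompleteSpace E] (f : ℕ → E) (hf : Summable f)
    (e : ℕ → ℕ) (B : ℕ → ℕ) (hB : ∀ n, f n ≠ 0 → n < B (e n)) :
    HasSum (fun N => ∑ n ∈ Finset.range (B N), if e n = N then f n else 0) (∑' n, f n) := by
  have h := hf.hasSum.tsum_fiberwise e
  have e1 : (fun N => ∑' b : (e ⁻¹' {N}), f b) =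
      fun N => ∑ n ∈ Finset.range (B N), if e n = N then f n else 0 := by
    funext N
    rw [tsum_subtype (e ⁻¹' {N}) f]
    rw [tsum_eq_sum (s := Finset.range (B N))]
    · refine Finset.sum_congr rfl fun n _ => ?_
      by_cases hn : e n = N
      · simp [Set.indicator, hn]
      · simp [Set.indicator, hn]
    · intro n hn
      by_cases hN : e n = N
      · by_contra hne
        have : f n ≠ 0 := by
          intro h0
          apply hne
          simp [Set.indicator, h0]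
        have := hB n this
        rw [hN] at this
        exact hn (Finset.mem_range.mpr this)
      · simp [Set.indicator, hN]
  rw [e1] at h
  exact h

/-- Powers of a series. -/
lemma pw (hEV : EVStmt) (U : PowerSeries ℚ) (K : Type) [NormedField K] [CompleteSpace K]
    [CharZero K] (q : K) (hq : Summable fun n : ℕ => ‖((PowerSeries.coeff n U : ℚ) : K)‖ * ‖q‖ ^ n)
    (k : ℕ) :
    Summable (fun n : ℕ => ‖((PowerSeries.coeff n (U ^ k) : ℚ) : K)‖ * ‖q‖ ^ n) ∧
    ∑' n : ℕ, ((PowerSeries.coeff n (U ^ k) : ℚ) : K) * q ^ n =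
      (∑' n : ℕ, ((PowerSeries.coeff n U : ℚ) : K) * q ^ n) ^ k := by
  induction k with
  | zero =>
    constructor
    · apply summable_of_ne_finset_zero (s := {0})
      intro n hn
      have : n ≠ 0 := by simpa using hn
      simp [PowerSeries.coeff_one, this]
    · rw [tsum_eq_single 0]
      · simp
      · intro n hn
        simp [PowerSeries.coeff_one, hn]
  | succ k ih =>
    obtain ⟨h1, h2⟩ := hEV K (U ^ k) U q ih.1 hq
    rw [pow_succ]
    refine ⟨h1, ?_⟩
    rw [h2, ih.2, pow_succ]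

/-- The exponent. -/
def ex (m k a d n : ℕ) : ℕ := ((a : ℤ) * (((n : ℤ) - k) / (d : ℤ)) + k * m).toNat

lemma ex_spec {m k a d n : ℕ} (had : a * d = m) (ha : 0 < a) (hd : 0 < d)
    (h : (d : ℤ) ∣ (n : ℤ) - k) :
    ((ex m k a d n : ℕ) : ℤ) = (a : ℤ) * (((n : ℤ) - k) / (d : ℤ)) + k * m ∧
    n < k + m * ex m k a d n + 1 := by
  obtain ⟨c, hc⟩ := h
  have hd' : (0 : ℤ) < d := by exact_mod_cast hd
  have ha' : (0 : ℤ) < a := by exact_mod_cast ha
  have hdiv : ((n : ℤ) - k) / (d : ℤ) = c := by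
    rw [hc]; exact Int.mul_ediv_cancel_left _ hd'.ne'
  have hm : (m : ℤ) = a * d := by rw [← had]; push_cast; ring
  have hn : (n : ℤ) = k + d * c := by linarith
  have hn0 : (0 : ℤ) ≤ n := Int.natCast_nonneg n
  have hk0 : (0 : ℤ) ≤ k := Int.natCast_nonneg k
  have hck : -(k : ℤ) ≤ c := by
    by_contra hlt
    push Not at hlt
    have h1 : (d : ℤ) * c < d * (-(k : ℤ)) := mul_lt_mul_of_pos_left hlt hd'
    nlinarith
  have hnn : 0 ≤ (a : ℤ) * c + k * m := by
    rw [hm]
    nlinarith [mul_nonneg hk0 ha'.le, mul_nonneg (mul_nonneg hk0 ha'.le) hd'.le]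
  have hE : ((ex m k a d n : ℕ) : ℤ) = (a : ℤ) * c + k * m := by
    unfold ex
    rw [hdiv, Int.toNat_of_nonneg hnn]
  refine ⟨by rw [hE, hdiv], ?_⟩
  have : (n : ℤ) < k + m * (ex m k a d n : ℕ) + 1 := by
    rw [hE, hn]
    have hm0 : (0 : ℤ) ≤ m := Int.natCast_nonneg m
    by_cases hc0 : c ≤ 0
    · have h1 : (d : ℤ) * c ≤ 0 := mul_nonpos_of_nonneg_of_nonpos hd'.le hc0
      have h2 : 0 ≤ (m : ℤ) * ((a : ℤ) * c + k * m) := mul_nonneg hm0 hnn
      linarith
    · push Not at hc0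
      have hdm : (d : ℤ) ≤ m := by rw [hm]; nlinarith
      have h1 : (d : ℤ) * c ≤ m * c := mul_le_mul_of_nonneg_right hdm hc0.le
      have h2 : (m : ℤ) * c ≤ m * ((a : ℤ) * c + k * m) := by
        apply mul_le_mul_of_nonneg_left _ hm0
        nlinarith [mul_nonneg hk0 hm0]
      linarith
  exact_mod_cast this

/-- The terms for one divisor. -/
noncomputable def gt {K : Type} [Field K] (U : PowerSeries ℚ) (m k a d : ℕ) (Q : K) (n : ℕ) : K :=
  open Classical in
  if (d : ℤ) ∣ (n : ℤ) - k then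
    (d : K) * ((PowerSeries.coeff n (U ^ k) : ℚ) : K) * Q ^ ex m k a d n else 0

/-- Geometric sum of a root of unity. -/
lemma geo {K : Type} [Field K] [CharZero K] {d : ℕ} {y : K}
    (hy : IsPrimitiveRoot y d) (j : ℤ) :
    (∑ b ∈ Finset.range d, (y ^ j) ^ b) = if (d : ℤ) ∣ j then (d : K) else 0 := by
  by_cases h : (d : ℤ) ∣ j
  · rw [if_pos h, (hy.zpow_eq_one_iff_dvd j).mpr h]
    simp
  · rw [if_neg h]
    have h1 : y ^ j ≠ 1 := fun h0 => h ((hy.zpow_eq_one_iff_dvd j).mp h0)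
    have h2 : (y ^ j) ^ d = 1 := by
      rw [← zpow_natCast, ← zpow_mul, mul_comm, zpow_mul, zpow_natCast, hy.pow_eq_one, one_zpow]
    rw [geom_sum_eq h1, h2]
    simp

lemma perdiv (hEV : EVStmt) (U : PowerSeries ℚ) (K : Type) [NormedField K] [CompleteSpace K]
    [CharZero K] (hU : ∀ ρ : ℝ, 0 ≤ ρ → ρ < 1 →
      Summable fun n : ℕ => ‖((PowerSeries.coeff n U : ℚ) : K)‖ * ρ ^ n)
    (m k : ℕ) (r z : K) (hr0 : 0 < ‖r‖) (hr1 : ‖r‖ < 1) (hz : IsPrimitiveRoot z m)
    (a d : ℕ) (had : a * d = m) (ha : 0 < a) (hd : 0 < d) :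
    HasSum (fun n => gt U m k a d (r ^ m) n)
      ((r ^ m) ^ (k * m) * ∑ b ∈ Finset.range d, jv U (z ^ (a * b) * r ^ (a ^ 2)) ^ k) ∧
    Summable (fun n => ‖gt U m k a d (r ^ m) n‖) := by
  have hm : 0 < m := by rw [← had]; exact Nat.mul_pos ha hd
  have hrne : r ≠ 0 := norm_pos_iff.mp hr0
  have hzne : z ≠ 0 := hz.ne_zero hm.ne'
  have hz1 : ‖z‖ = 1 := by
    have h1 : ‖z‖ ^ m = 1 := by rw [← norm_pow, hz.pow_eq_one, norm_one]
    exact (pow_eq_one_iff_of_nonneg (norm_nonneg z) hm.ne').mp h1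
  set w : ℕ → K := fun b => z ^ (a * b) * r ^ (a ^ 2) with hw
  have hwne : ∀ b, w b ≠ 0 := fun b => mul_ne_zero (pow_ne_zero _ hzne) (pow_ne_zero _ hrne)
  have hwn : ∀ b, ‖w b‖ = ‖r‖ ^ (a ^ 2) := by
    intro b
    simp only [hw, norm_mul, norm_pow, hz1, one_pow, one_mul]
  have hw1 : ∀ b, ‖w b‖ < 1 := by
    intro b
    rw [hwn]
    exact pow_lt_one₀ (norm_nonneg r) hr1 (by positivity)
  have hsU : ∀ b, Summable fun n : ℕ => ‖((PowerSeries.coeff n U : ℚ) : K)‖ * ‖w b‖ ^ n :=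
    fun b => hU _ (norm_nonneg _) (hw1 b)
  have hP := fun b => pw hEV U K (w b) (hsU b) k
  set u : ℕ → K := fun n => ((PowerSeries.coeff n (U ^ k) : ℚ) : K) with hu
  set cb : ℕ → K := fun b => (r ^ m) ^ (k * m) * ((w b) ^ k)⁻¹ with hcb
  -- the term identity
  have hterm : ∀ n, gt U m k a d (r ^ m) n = ∑ b ∈ Finset.range d, cb b * (u n * w b ^ n) := by
    intro n
    have hy : IsPrimitiveRoot (z ^ a) d := hz.pow hm had.symm
    have e1 : ∀ b ∈ Finset.range d, cb b * (u n * w b ^ n) =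
        ((r ^ m) ^ (k * m) * u n * (r ^ (a ^ 2)) ^ ((n : ℤ) - k)) *
          ((z ^ a) ^ ((n : ℤ) - k)) ^ b := by
      intro b _
      have h1 : w b ^ n * ((w b) ^ k)⁻¹ = w b ^ ((n : ℤ) - k) := by
        rw [zpow_sub₀ (hwne b), zpow_natCast, zpow_natCast, div_eq_mul_inv]
      have h2 : w b ^ ((n : ℤ) - k) =
          ((z ^ a) ^ ((n : ℤ) - k)) ^ b * (r ^ (a ^ 2)) ^ ((n : ℤ) - k) := by
        simp only [hw]
        rw [mul_zpow, pow_mul]
        congr 1
        rw [← zpow_natCast, ← zpow_natCast ((z ^ a) ^ ((n : ℤ) - k)) b, ← zpow_mul, ← zpow_mul,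
          mul_comm]
      calc cb b * (u n * w b ^ n) = (r ^ m) ^ (k * m) * u n * (w b ^ n * ((w b) ^ k)⁻¹) := by
            simp only [hcb]; ring
        _ = _ := by rw [h1, h2]; ring
    rw [Finset.sum_congr rfl e1, ← Finset.mul_sum, geo hy]
    unfold gt
    by_cases h : (d : ℤ) ∣ (n : ℤ) - k
    · rw [if_pos h, if_pos h]
      obtain ⟨hE, _⟩ := ex_spec had ha hd h (m := m) (k := k)
      obtain ⟨c, hc⟩ := h
      have hd' : (0 : ℤ) < d := by exact_mod_cast hd
      have hdiv : ((n : ℤ) - k) / (d : ℤ) = c := by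
        rw [hc]; exact Int.mul_ediv_cancel_left _ hd'.ne'
      rw [hdiv] at hE
      have h3 : (r ^ m) ^ ex m k a d n = (r ^ m) ^ (k * m) * (r ^ (a ^ 2)) ^ ((n : ℤ) - k) := by
        have hQ : r ^ m ≠ 0 := pow_ne_zero _ hrne
        rw [← zpow_natCast (r ^ m) (ex m k a d n), hE, zpow_add₀ hQ, mul_comm]
        congr 1
        · exact_mod_cast zpow_natCast (r ^ m) (k * m)
        · rw [hc, ← zpow_natCast, ← zpow_natCast, ← zpow_mul, ← zpow_mul]
          congr 1
          rw [← had]; push_cast; ring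
      rw [h3]; ring
    · rw [if_neg h, if_neg h, mul_zero]
  have hsum : ∀ b, HasSum (fun n => cb b * (u n * w b ^ n)) ((r ^ m) ^ (k * m) * jv U (w b) ^ k) := by
    intro b
    have h1 : Summable fun n : ℕ => u n * w b ^ n := by
      apply Summable.of_norm
      refine (hP b).1.congr fun n => ?_
      simp only [hu, norm_mul, norm_pow]
    have h2 := (h1.hasSum).mul_left (cb b)
    have h3 : cb b * ∑' n, u n * w b ^ n = (r ^ m) ^ (k * m) * jv U (w b) ^ k := by
      have h4 : ∑' n, u n * w b ^ n =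
          (∑' n : ℕ, ((PowerSeries.coeff n U : ℚ) : K) * w b ^ n) ^ k := (hP b).2
      rw [h4]
      simp only [hcb, jv]
      rw [div_pow, div_eq_mul_inv]
      ring
    rw [h3] at h2
    exact h2
  constructor
  · have h1 := hasSum_sum (s := Finset.range d) fun b _ => hsum b
    rw [← Finset.mul_sum] at h1
    exact h1.congr_fun hterm
  · have hb : ∀ b, Summable fun n => ‖cb b‖ * (‖u n‖ * ‖w b‖ ^ n) := fun b =>
      ((hP b).1).mul_left _
    have hs := summable_sum (s := Finset.range d) fun b _ => hb b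
    refine Summable.of_nonneg_of_le (fun n => norm_nonneg _) (fun n => ?_) hs
    rw [hterm n]
    refine (norm_sum_le _ _).trans (le_of_eq ?_)
    refine Finset.sum_congr rfl fun b _ => ?_
    rw [norm_mul (cb b), norm_mul (u n), norm_pow (w b)]

lemma idx_sum {E : Type} [AddCommMonoid E] (m : ℕ) (F : ℕ × ℕ → E) :
    ∑ x ∈ idx m, F x = ∑ a ∈ m.divisors, ∑ b ∈ Finset.range (m / a), F (a, b) := by
  unfold idx
  rw [Finset.sum_filter, Finset.sum_product]
  refine Finset.sum_congr rfl fun a ha => ?_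
  rw [← Finset.sum_filter]
  refine Finset.sum_congr ?_ fun _ _ => rfl
  ext b
  simp only [Finset.mem_filter, Finset.mem_range]
  constructor
  · exact fun h => h.2
  · exact fun h => ⟨lt_of_lt_of_le h (Nat.div_le_self m a), h⟩

theorem hs (hEV : EVStmt) : HSStmt := by
  intro U K _ _ _ hU m k hm r z hr0 hr1 hz
  have hpd : ∀ a ∈ m.divisors, a * (m / a) = m ∧ 0 < a ∧ 0 < m / a := by
    intro a ha
    have h1 := Nat.dvd_of_mem_divisors ha
    have h2 : 0 < a := Nat.pos_of_mem_divisors ha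
    exact ⟨Nat.mul_div_cancel' h1, h2, Nat.div_pos (Nat.le_of_dvd hm h1) h2⟩
  have hP : ∀ a ∈ m.divisors, HasSum (fun n => gt U m k a (m / a) (r ^ m) n)
      ((r ^ m) ^ (k * m) * ∑ b ∈ Finset.range (m / a), jv U (z ^ (a * b) * r ^ (a ^ 2)) ^ k) ∧
    Summable (fun n => ‖gt U m k a (m / a) (r ^ m) n‖) := by
    intro a ha
    obtain ⟨h1, h2, h3⟩ := hpd a ha
    exact perdiv hEV U K hU m k r z hr0 hr1 hz a (m / a) h1 h2 h3
  have hgB : ∀ a ∈ m.divisors, ∀ n, gt U m k a (m / a) (r ^ m) n ≠ 0 →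
      n < k + m * ex m k a (m / a) n + 1 := by
    intro a ha n hn
    obtain ⟨h1, h2, h3⟩ := hpd a ha
    by_cases h : ((m / a : ℕ) : ℤ) ∣ (n : ℤ) - k
    · exact (ex_spec h1 h2 h3 h).2
    · exact absurd (by unfold gt; rw [if_neg h]) hn
  -- the coefficient identity
  have hco : ∀ N, ((PowerSeries.coeff N (hser U m k) : ℚ) : K) * (r ^ m) ^ N =
      ∑ a ∈ m.divisors, ∑ n ∈ Finset.range (k + m * N + 1),
        if ex m k a (m / a) n = N then gt U m k a (m / a) (r ^ m) n else 0 := by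
    intro N
    unfold hser
    rw [map_sum, Rat.cast_sum, Finset.sum_mul]
    refine Finset.sum_congr rfl fun a ha => ?_
    obtain ⟨h1, h2, h3⟩ := hpd a ha
    rw [PowerSeries.coeff_mk, Rat.cast_sum, Finset.sum_mul]
    refine Finset.sum_congr rfl fun n _ => ?_
    by_cases h : ((m / a : ℕ) : ℤ) ∣ (n : ℤ) - k
    · have hE := (ex_spec h1 h2 h3 h (m := m) (k := k)).1
      by_cases hN : ex m k a (m / a) n = N
      · have hc : ((m / a : ℕ) : ℤ) ∣ (n : ℤ) - k ∧
            (a : ℤ) * (((n : ℤ) - k) / ((m / a : ℕ) : ℤ)) + k * m = N := ⟨h, by rw [← hE, hN]⟩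
        rw [if_pos hc, if_pos hN]
        unfold gt
        rw [if_pos h, hN]
        push_cast
        ring
      · have hc : ¬ (((m / a : ℕ) : ℤ) ∣ (n : ℤ) - k ∧
            (a : ℤ) * (((n : ℤ) - k) / ((m / a : ℕ) : ℤ)) + k * m = N) := by
          rintro ⟨_, h5⟩
          apply hN
          rw [← hE] at h5
          exact_mod_cast h5
        rw [if_neg hc, if_neg hN]
        simp
    · rw [if_neg (fun hc => h hc.1)]
      unfold gt
      rw [if_neg h]
      simp
  have hfib : ∀ a ∈ m.divisors, HasSum (fun N => ∑ n ∈ Finset.range (k + m * N + 1),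
        if ex m k a (m / a) n = N then gt U m k a (m / a) (r ^ m) n else 0)
      ((r ^ m) ^ (k * m) * ∑ b ∈ Finset.range (m / a), jv U (z ^ (a * b) * r ^ (a ^ 2)) ^ k) := by
    intro a ha
    have h1 := fib (fun n => gt U m k a (m / a) (r ^ m) n) (hP a ha).1.summable
      (ex m k a (m / a)) (fun N => k + m * N + 1) (hgB a ha)
    rw [(hP a ha).1.tsum_eq] at h1
    exact h1
  have hfibn : ∀ a ∈ m.divisors, Summable (fun N => ∑ n ∈ Finset.range (k + m * N + 1),
        if ex m k a (m / a) n = N then ‖gt U m k a (m / a) (r ^ m) n‖ else 0) := by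
    intro a ha
    exact (fib (fun n => ‖gt U m k a (m / a) (r ^ m) n‖) (hP a ha).2
      (ex m k a (m / a)) (fun N => k + m * N + 1)
      (fun n hn => hgB a ha n (fun h0 => hn (by simp [h0])))).summable
  constructor
  · have hs := summable_sum (s := m.divisors) hfibn
    refine Summable.of_nonneg_of_le (fun N => by positivity) (fun N => ?_) hs
    rw [← norm_pow, ← norm_mul, hco N]
    refine (norm_sum_le _ _).trans (Finset.sum_le_sum fun a _ => ?_)
    refine (norm_sum_le _ _).trans (Finset.sum_le_sum fun n _ => ?_)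
    by_cases hN : ex m k a (m / a) n = N
    · rw [if_pos hN, if_pos hN]
    · rw [if_neg hN, if_neg hN, norm_zero]
  · have h1 := hasSum_sum (s := m.divisors) hfib
    have h2 := (h1.congr_fun hco).tsum_eq
    rw [h2, ← Finset.mul_sum, idx_sum m]

end Pool.Agent.ZPT.H51
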