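import Pool.Agent.Helper51_ZPT.FinB
import Pool.Agent.Helper51_ZPT.HS
import Pool.Agent.Helper15_ZPT.KX
import Pool.Agent.Helper18_ZPT.AO
import Pool.Agent.Helper18_ZPT.HC
import Pool.Agent.Helper18_ZPT.MK
import Pool.Agent.Helper18_ZPT.MS
import Pool.Agent.Helper25_ZPT.IS
import Pool.Agent.Helper25_ZPT.JI
import Pool.Agent.Helper25_ZPT.LA
import Pool.Agent.Helper32_ZPT.HF
import Pool.Agent.Helper39_ZPT.MF
import Pool.Agent.Helper3_ZPT.HI
import Pool.Agent.Helper3_ZPT.UE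
import Pool.Agent.Helper41_ZPT.AM
import Pool.Agent.Helper41_ZPT.F1
import Pool.Agent.Helper41_ZPT.LOC
import Pool.Agent.Helper41_ZPT.NN
import Pool.Agent.Helper41_ZPT.PF
import Pool.Agent.Helper49_ZPT.CF
import Pool.Agent.Helper49_ZPT.NW
import Pool.Agent.Helper49_ZPT.RU
import Pool.Agent.Helper56_ZPT.JE
import Pool.Agent.Helper62_ZPT.PS
import Pool.Agent.Helper62_ZPT.TP
import Pool.Agent.Helper62_ZPT.UX
import Pool.Agent.Helper70_ZPT.UI
import Pool.Agent.Helper77_ZPT.JS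
import Pool.Agent.Helper84_ZPT.EvSq
import Pool.Agent.Helper88_ZPT.Dn
import Pool.Agent.Helper88_ZPT.Red
import Pool.Agent.Helper88_ZPT.Small
import Pool.Agent.Helper88_ZPT.Tate
import Pool.Agent.Helper92_ZPT.IK

set_option autoImplicit false

namespace Pool.Agent.ZPT.H51

open Pool.Agent.ZPT

/-- Everything except the row MP. -/
theorem asm0 (hMP : JEStmt → HIStmt → MPStmt)
    (n : ℕ) (P : Ideal (MvPolynomial (Fin n) ℂ)) (hP : P.IsPrime)
    (hdim : ringKrullDim (MvPolynomial (Fin n) ℂ ⧸ P) = 1) (hQ : DefQbar P) (hND : NoDouble P) :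
    (∃ p₀ : ℕ, ∀ (p : ℕ) [Fact p.Prime], 5 ≤ p → ∀ σ : Qb →+* ℂ_[p], ∃ C : ℝ, (p₀ ≤ p → C = 1) ∧
      ∀ c : Fin n → Qb, Large σ C c → Q1For P (fun i => (c i : ℂ))) ∧
    ∀ ε : ℝ, 0 < ε → ∃ H₀ : ℕ, ∀ H : ℕ, H₀ ≤ H → ∀ A : Finset ((Fin n → ℤ) × ℤ),
      (∀ w ∈ A, (∀ i, |w.1 i| ≤ H) ∧ 1 ≤ w.2 ∧ w.2 ≤ H ∧
        ¬ Q1For P (fun i => (w.1 i : ℂ) / (w.2 : ℂ))) → (A.card : ℝ) ≤ ε * (H : ℝ) ^ (n + 1) := by
  have je := H56.je
  have ji := H25.ji je
  have js := H77.js je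
  have hf := H32.hf
  have hu := H32.hu
  have hi := H3.hi ji hf hu
  have mf := H39.mf je
  have mp := hMP je hi
  have mc := H41.mc mf mp
  have ic := H25.ic ji hf
  have ib := H25.ib js
  have is_ := H25.is_
  have ev := H84.ev
  have ue := H3U.ue ev
  have ui := H70.ui
  have ux := H62.ux je ev ue ui
  have uq := H88.uq
  have hs' := hs ev
  have hc := H18.hc
  have sq := H84.sq
  have ms := H18.ms ev uq hs' hc sq mc
  have mk := H18.mk ev hs' ms
  have nw := H49.nw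
  have ps := H62.ps ux hc mk nw
  have eh := H88.eh
  have tb := H88.tb
  have kt := H88.kt
  have ts := H88.ts
  have ik := H92.ik ic eh tb ts H62.tp
  have loc := H41.loc is_ kt ik
  have nn := H41.nn tb H49.rv H88.fo
  have ca := H25.ca H25.la
  have gi := H25.gi H25.la
  have am := H41.am gi H88.gr H18.ao
  have f1 := H41.f1 ps ic ib H49.cf ca H41.pf H62.tq nn eh loc
  exact finB H15.kx am f1 H88.dn n P hP hdim hQ hND

end Pool.Agent.ZPT.H51
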