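import Pool.Agent.ZPT.Stmts

set_option autoImplicit false

namespace Pool.Agent.ZPT.H51

open Polynomial

/-- The norm of an integer prime to `p`. -/
lemma norm_int_one {p : ℕ} [Fact p.Prime] {K : Type} [NormedField K] [CharZero K] (hK : Ext p K)
    {a : ℤ} (ha : ¬ (p : ℤ) ∣ a) : ‖((a : ℤ) : K)‖ = 1 := by
  have h := hK (a : ℚ)
  rw [Rat.cast_intCast] at h
  rw [h, (padicNorm.int_eq_one_iff a).mpr ha]
  simp

lemma norm_int_lt {p : ℕ} [Fact p.Prime] {K : Type} [NormedField K] [CharZero K] (hK : Ext p K)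
    {a : ℤ} (ha : (p : ℤ) ∣ a) : ‖((a : ℤ) : K)‖ < 1 := by
  have h := hK (a : ℚ)
  rw [Rat.cast_intCast] at h
  rw [h]
  have := (padicNorm.int_lt_one_iff a).mpr ha
  exact_mod_cast this

/-- The algebraic numbers embed into every algebraically closed field of characteristic 0. -/
lemma exists_emb (K : Type) [Field K] [CharZero K] [IsAlgClosed K] : Nonempty (Qb →+* K) := by
  have halg : Algebra.IsAlgebraic ℚ (algebraicClosure ℚ ℂ) := algebraicClosure.isAlgebraic ℚ ℂ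
  exact ⟨(IsAlgClosed.lift (R := ℚ) (S := algebraicClosure ℚ ℂ) (M := K)).toRingHom⟩

open Classical in
theorem fin (hKX : KXStmt) (hAM : AMStmt) (hF1 : F1Stmt) (hDN : DNStmt) : FINStmt := by
  intro n P hP hdim hQ hND
  obtain ⟨hA, p1, hB⟩ := hAM n P hQ hND
  refine ⟨?_, ?_, ?_⟩
  · intro p hp hp5 σ
    obtain ⟨C, hC, hAt⟩ := hA ℂ_[p] σ
    exact ⟨C, fun c hc => hF1 n P hP hdim hQ p hp.out hp5 ℂ_[p] (hKX p) σ C hC hAt c (Or.inl hc)⟩
  · refine ⟨max 5 p1, fun p hp hpp σ c hc => ?_⟩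
    exact hF1 n P hP hdim hQ p hp.out (le_trans (le_max_left _ _) hpp) ℂ_[p] (hKX p) σ 1 le_rfl
      (hB p hp.out (le_trans (le_max_right _ _) hpp) ℂ_[p] (hKX p) σ) c (Or.inr ⟨rfl, hc⟩)
  · intro ε hε
    obtain ⟨H₀, hH⟩ := hDN n (max 5 p1) ε hε
    refine ⟨H₀, fun H hHH => le_trans ?_ (hH H hHH)⟩
    have hsub : ((box n H).filter fun w => ¬ Q1For P (fun i => (w.1 i : ℂ) / (w.2 : ℂ))) ⊆
        ((box n H).filter fun w => ¬ ∃ p : ℕ, p.Prime ∧ max 5 p1 ≤ p ∧ (p : ℤ) ∣ w.2 ∧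
          ∀ i, ¬ (p : ℤ) ∣ w.1 i) := by
      intro w hw
      rw [Finset.mem_filter] at hw ⊢
      refine ⟨hw.1, ?_⟩
      rintro ⟨p, hpp, hp0, hpN, hpa⟩
      apply hw.2
      have hF : Fact p.Prime := ⟨hpp⟩
      have hw2 : 1 ≤ w.2 := by
        have h1 := hw.1
        unfold box at h1
        rw [Finset.mem_product] at h1
        exact (Finset.mem_Icc.mp h1.2).1
      obtain ⟨σ⟩ := exists_emb ℂ_[p]
      let c : Fin n → Qb := fun i => ((w.1 i : ℤ) : Qb) / ((w.2 : ℤ) : Qb)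
      have hc : (fun i => (w.1 i : ℂ) / (w.2 : ℂ)) = fun i => ((c i : Qb) : ℂ) := by
        funext i
        simp only [c]
        push_cast
        rfl
      rw [hc]
      have hn : ∀ i, 1 < ‖σ (c i)‖ := by
        intro i
        have e1 : σ (c i) = ((w.1 i : ℤ) : ℂ_[p]) / ((w.2 : ℤ) : ℂ_[p]) := by
          simp only [c, map_div₀, map_intCast]
        rw [e1, norm_div, norm_int_one (hKX p) (hpa i)]
        have h2 : ‖((w.2 : ℤ) : ℂ_[p])‖ < 1 := norm_int_lt (hKX p) hpN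
        have h3 : 0 < ‖((w.2 : ℤ) : ℂ_[p])‖ := by
          rw [norm_pos_iff]
          have : w.2 ≠ 0 := by omega
          exact_mod_cast this
        rw [one_div]
        exact (one_lt_inv₀ h3).mpr h2
      exact hF1 n P hP hdim hQ p hpp (le_trans (le_max_left _ _) hp0) ℂ_[p] (hKX p) σ 1 le_rfl
        (hB p hpp (le_trans (le_max_right _ _) hp0) ℂ_[p] (hKX p) σ) c (Or.inl hn)
    exact_mod_cast Finset.card_le_card hsub

end Pool.Agent.ZPT.H51
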