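import Pool.Agent.Helper51_ZPT.FIN

set_option autoImplicit false

namespace Pool.Agent.ZPT.H51

open Polynomial

/-- The final theorem in one piece: a criterion for translation vectors with algebraic coordinates,
and density one for rational vectors. -/
theorem finB (hKX : KXStmt) (hAM : AMStmt) (hF1 : F1Stmt) (hDN : DNStmt)
    (n : ℕ) (P : Ideal (MvPolynomial (Fin n) ℂ)) (hP : P.IsPrime)
    (hdim : ringKrullDim (MvPolynomial (Fin n) ℂ ⧸ P) = 1) (hQ : DefQbar P) (hND : NoDouble P) :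
    (∃ p₀ : ℕ, ∀ (p : ℕ) [Fact p.Prime], 5 ≤ p → ∀ σ : Qb →+* ℂ_[p], ∃ C : ℝ, (p₀ ≤ p → C = 1) ∧
      ∀ c : Fin n → Qb, Large σ C c → Q1For P (fun i => (c i : ℂ))) ∧
    ∀ ε : ℝ, 0 < ε → ∃ H₀ : ℕ, ∀ H : ℕ, H₀ ≤ H → ∀ A : Finset ((Fin n → ℤ) × ℤ),
      (∀ w ∈ A, (∀ i, |w.1 i| ≤ H) ∧ 1 ≤ w.2 ∧ w.2 ≤ H ∧
        ¬ Q1For P (fun i => (w.1 i : ℂ) / (w.2 : ℂ))) → (A.card : ℝ) ≤ ε * (H : ℝ) ^ (n + 1) := by
  classical
  obtain ⟨hA, p1, hB⟩ := hAM n P hQ hND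
  constructor
  · refine ⟨max 5 p1, fun p hp hp5 σ => ?_⟩
    by_cases hpp : max 5 p1 ≤ p
    · refine ⟨1, fun _ => rfl, fun c hc => ?_⟩
      exact hF1 n P hP hdim hQ p hp.out hp5 ℂ_[p] (hKX p) σ 1 le_rfl
        (hB p hp.out (le_trans (le_max_right _ _) hpp) ℂ_[p] (hKX p) σ) c hc
    · obtain ⟨C, hC, hAt⟩ := hA ℂ_[p] σ
      refine ⟨C, fun h => absurd h hpp, fun c hc => ?_⟩
      exact hF1 n P hP hdim hQ p hp.out hp5 ℂ_[p] (hKX p) σ C hC hAt c hc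
  · intro ε hε
    obtain ⟨-, -, h3⟩ := fin hKX hAM hF1 hDN n P hP hdim hQ hND
    obtain ⟨H₀, hH⟩ := h3 ε hε
    refine ⟨H₀, fun H hHH A hA' => le_trans ?_ (hH H hHH)⟩
    have hsub : A ⊆ ((box n H).filter fun w => ¬ Q1For P (fun i => (w.1 i : ℂ) / (w.2 : ℂ))) := by
      intro w hw
      obtain ⟨h1, h2, h4, h5⟩ := hA' w hw
      rw [Finset.mem_filter]
      refine ⟨?_, h5⟩
      unfold box
      rw [Finset.mem_product, Fintype.mem_piFinset, Finset.mem_Icc]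
      refine ⟨fun i => ?_, h2, h4⟩
      rw [Finset.mem_Icc]
      exact abs_le.mp (h1 i)
    have := Finset.card_le_card hsub
    exact_mod_cast this

end Pool.Agent.ZPT.H51
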